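import Pool.Agent.N347.TC.Total

set_option autoImplicit false

/-! Total colourings of blow-ups `H[m]` with `m > Δ(H)`. -/

namespace Pool.Agent.Results.MP_aaba26_co.LargeBlowUps

/-- `G` has a total colouring with `k` colours: vertices are coloured by `a`, edges by `b`;
adjacent vertices, an edge and its ends, and distinct edges sharing an end get distinct colours. -/
def TotallyColourable {W : Type} (G : SimpleGraph W) (k : ℕ) : Prop :=
  ∃ (a : W → Fin k) (b : Sym2 W → Fin k), ∀ x y, G.Adj x y → a x ≠ a y ∧ b s(x, y) ≠ a x ∧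
    ∀ z, G.Adj x z → z ≠ y → b s(x, y) ≠ b s(x, z)

theorem of_total {V W : Type} [Finite V] [Finite W] (H : SimpleGraph V) (G : SimpleGraph W)
    (d m D : ℕ) (hd : ∀ v, (H.neighborSet v).ncard ≤ d) (hm : d < m) (hD : d * m ≤ D)
    (hex : Odd m → ∀ C : H.ConnectedComponent, Odd C.supp.ncard →
      (∀ v ∈ C.supp, (H.neighborSet v).ncard = d) → d * m + 1 ≤ D)
    (f : W → V) (hfG : ∀ x y, G.Adj x y → H.Adj (f x) (f y))
    (hf : ∀ v, (f ⁻¹' {v}).ncard ≤ m) : TotallyColourable G (D + 2) := by
  classical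
  obtain ⟨fV, fE, h1, h2, h3, h4, h5⟩ := Pool.Agent.N347.TC.total H G d m D 1 le_rfl hd hD
    (Or.inr hm) hex f hfG hf
  refine ⟨fun x => ⟨fV x, h1 x⟩, fun e => if h : fE e < D + 2 then ⟨fE e, h⟩ else ⟨0, by omega⟩,
    fun x y hxy => ⟨fun h => h3 x y hxy (congrArg Fin.val h), fun h => ?_,
      fun z hxz hzy h => ?_⟩⟩
  · have h6 : fE s(x, y) < D + 2 := h2 _ hxy
    beta_reduce at h
    rw [dif_pos h6] at h
    have h7 : fE s(x, y) = fV x := congrArg Fin.val h
    have h8 := h5 x y hxy
    rw [h7] at h8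
    simp at h8
  · have h6 : fE s(x, y) < D + 2 := h2 _ hxy
    have h7 : fE s(x, z) < D + 2 := h2 _ hxz
    beta_reduce at h
    rw [dif_pos h6, dif_pos h7] at h
    exact h4 x y z hxy hxz hzy.symm (congrArg Fin.val h)

/-- Let `H` be a finite graph with all degrees at most `d`, let `m > d`, and let `G` have a map to
`H` which sends edges to edges and has at most `m` vertices in every fibre. Then `G` has a total
colouring with `dm + 3` colours, and even with `dm + 2` colours unless `m` is odd and `H` has a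
`d`-regular component with an odd number of vertices. -/
theorem result {V W : Type} [Finite V] [Finite W] (H : SimpleGraph V) (G : SimpleGraph W)
    (d m : ℕ) (hd : ∀ v, (H.neighborSet v).ncard ≤ d) (hm : d < m) (f : W → V)
    (hfG : ∀ x y, G.Adj x y → H.Adj (f x) (f y)) (hf : ∀ v, (f ⁻¹' {v}).ncard ≤ m) :
    TotallyColourable G (d * m + 3) ∧
      (¬ (Odd m ∧ ∃ C : H.ConnectedComponent, Odd C.supp.ncard ∧
        ∀ v ∈ C.supp, (H.neighborSet v).ncard = d) → TotallyColourable G (d * m + 2)) := by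
  refine ⟨?_, fun hne => ?_⟩
  · exact of_total H G d m (d * m + 1) hd hm (by omega) (fun _ _ _ _ => le_rfl) f hfG hf
  · exact of_total H G d m (d * m) hd hm le_rfl (fun ho C hC hr => absurd ⟨ho, C, hC, hr⟩ hne) f
      hfG hf

end Pool.Agent.Results.MP_aaba26_co.LargeBlowUps
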