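import Pool.Agent.N347.TC.ListTotal

set_option autoImplicit false

/-! Total colourings of graphs whose twin classes are even. -/

namespace Pool.Agent.Results.MP_aaba26_co.TwinClasses

/-- The class of twins of `x`: the vertices with the same neighbours as `x`. -/
def Twins {W : Type} (G : SimpleGraph W) (x : W) : Set W := {y | ∀ z, G.Adj x z ↔ G.Adj y z}

/-- Let `G` be a finite graph with all degrees at most `D`. Suppose that for every vertex `x` the
number `n` of the twins of `x` (itself included) is even or `deg x ≤ (1 - 1/n) D`. Then `G` has a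
total colouring from all lists of at least `D + 2` colours (lists `LV` of the vertices, `LE` of the
edges) that are equal for twins, respectively for edges between the same twin classes. -/
theorem result {W : Type} [Finite W] (G : SimpleGraph W) (D : ℕ)
    (hD : ∀ x, (G.neighborSet x).ncard ≤ D)
    (hcl : ∀ x, Even (Twins G x).ncard ∨
      (G.neighborSet x).ncard * (Twins G x).ncard + D ≤ D * (Twins G x).ncard)
    (LV : W → Finset ℕ) (LE : Sym2 W → Finset ℕ) (hV : ∀ x, D + 2 ≤ (LV x).card)
    (hE : ∀ x y, G.Adj x y → D + 2 ≤ (LE s(x, y)).card)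
    (hVi : ∀ x, ∀ x' ∈ Twins G x, LV x' = LV x)
    (hEi : ∀ x y x' y', G.Adj x y → x' ∈ Twins G x → y' ∈ Twins G y →
      LE s(x', y') = LE s(x, y)) :
    ∃ (a : W → ℕ) (b : Sym2 W → ℕ), (∀ x, a x ∈ LV x) ∧
      ∀ x y, G.Adj x y → b s(x, y) ∈ LE s(x, y) ∧ a x ≠ a y ∧ b s(x, y) ≠ a x ∧
        ∀ z, G.Adj x z → z ≠ y → b s(x, y) ≠ b s(x, z) :=
  Pool.Agent.N347.TC.list_total G D hD hcl LV LE hV hE hVi hEi

end Pool.Agent.Results.MP_aaba26_co.TwinClasses
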